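import Pool.Agent.H68.LCS.Targets

/-!
# MP_5607ba_lc, strong transfer, part A: row YEX
-/

set_option autoImplicit false

open Set Filter Topology
open scoped Pointwise

namespace Pool.Agent.H47.LCS

open Pool.Agent.H93.CP Pool.Agent.H7.LP Pool.Agent.H7.LQ Pool.Agent.H68.LCS

theorem pf_YEX (h1 : T_KCP) : T_YEX := by
  intro Γ F _ _ _ _ _ _ _ _ _ D B y
  obtain ⟨-, -, hC, hC1, -, hCW⟩ := h1 Γ F D B 0 y
  have hCCC : IsCompact (D.C * D.C * D.C) := (hC.mul hC).mul hC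
  let S : Set Γ := {s | s • y = y}
  let E : Set Γ := (D.C * D.C * D.C) \ (D.W 0 * S)
  have hE : IsCompact E := hCCC.diff ((D.opn 0).mul_right)
  have hEy : IsCompact ((fun h : Γ => h • y) '' E) :=
    hE.image (continuous_id.smul continuous_const)
  have hyE : y ∉ (fun h : Γ => h • y) '' E := by
    rintro ⟨h, hh, hhy⟩
    exact hh.2 (Set.mem_mul.2 ⟨1, D.one 0, h, hhy, one_mul h⟩)
  obtain ⟨t, hyt, ht⟩ := B.bas y _ (hEy.isClosed.isOpen_compl.mem_nhds hyE)
  let P : Set (Γ × Γ) := {q | (q.1 * q.2) • y ∉ closure (B.U t)} ∪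
    {q | ∃ s ∈ S, q.1 * q.2 * s⁻¹ * q.2⁻¹ ∈ D.W 0}
  have hP : IsOpen P := by
    refine IsOpen.union ?_ ?_
    · have h2 : Continuous fun q : Γ × Γ => (q.1 * q.2) • y :=
        (continuous_fst.mul continuous_snd).smul continuous_const
      exact isClosed_closure.isOpen_compl.preimage h2
    · have h3 : {q : Γ × Γ | ∃ s ∈ S, q.1 * q.2 * s⁻¹ * q.2⁻¹ ∈ D.W 0} =
          ⋃ s ∈ S, (fun q : Γ × Γ => q.1 * q.2 * s⁻¹ * q.2⁻¹) ⁻¹' D.W 0 := by
        ext q
        simp only [Set.mem_ofPred_eq, Set.mem_iUnion, Set.mem_preimage, exists_prop]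
      rw [h3]
      refine isOpen_biUnion fun s _ => (D.opn 0).preimage ?_
      exact ((continuous_fst.mul continuous_snd).mul continuous_const).mul
        continuous_snd.inv
  have hsub : (D.C * D.C * D.C) ×ˢ ({1} : Set Γ) ⊆ P := by
    rintro ⟨h, g⟩ ⟨hh, hg⟩
    have hg1 : g = 1 := hg
    subst hg1
    by_cases hc : h • y ∈ closure (B.U t)
    · right
      have h4 : h ∈ D.W 0 * S := by
        by_contra hn
        exact ht hc ⟨h, ⟨hh, hn⟩, rfl⟩
      obtain ⟨w, hw, s, hs, hws⟩ := Set.mem_mul.1 h4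
      refine ⟨s, hs, ?_⟩
      have h5 : h * 1 * s⁻¹ * (1 : Γ)⁻¹ = w := by rw [← hws]; group
      change h * 1 * s⁻¹ * (1 : Γ)⁻¹ ∈ D.W 0
      rw [h5]
      exact hw
    · left
      change (h * 1) • y ∉ closure (B.U t)
      rwa [mul_one]
  obtain ⟨u, v, -, hv, hu1, hv1, huv⟩ := generalized_tube_lemma hCCC isCompact_singleton hP hsub
  have hO : v ∩ {g : Γ | g • y ∈ B.U t} ∈ 𝓝 (1 : Γ) := by
    refine Filter.inter_mem (hv.mem_nhds (hv1 rfl)) ?_
    have h6 : Continuous fun g : Γ => g • y := continuous_id.smul continuous_const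
    refine ((B.opn t).preimage h6).mem_nhds ?_
    change (1 : Γ) • y ∈ B.U t
    rwa [one_smul]
  obtain ⟨p, hp⟩ := D.sml _ hO
  refine ⟨t, p, fun c hc => ?_⟩
  obtain ⟨o, ⟨hov, hoU⟩, hco⟩ := hp c hc
  rw [hco y]
  refine ⟨hoU, fun h hh hcl => ?_⟩
  have h7 : (h, o) ∈ P := huv ⟨hu1 hh, hov⟩
  rcases h7 with h7 | ⟨s, hs, hsw⟩
  · exfalso
    apply h7
    change (h * o) • y ∈ closure (B.U t)
    rw [mul_smul]
    exact hcl
  · obtain ⟨c', hc', hcw⟩ := hCW _ hsw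
    refine ⟨c', hc', ?_⟩
    rw [← hcw (o • y)]
    have h8 : h • o • y = (h * o * s⁻¹) • s • y := by
      rw [← mul_smul, ← mul_smul]
      congr 1
      group
    have hs' : s • y = y := hs
    rw [h8, hs']
    change (h * o * s⁻¹) • y = (h * o * s⁻¹ * o⁻¹) • o • y
    rw [← mul_smul]
    congr 1
    group

end Pool.Agent.H47.LCS
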